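import Mathlib

set_option autoImplicit false

namespace Pool.Agent.Results.MP_291637_al.NotBGroup

open MulAction
open scoped Pointwise

/-! ### The definitions used in the statement -/

/-- `X` is a *B-group*: every primitive permutation group `G` on a set `Ω` that contains a regular
subgroup `H` isomorphic to `X` is doubly transitive. -/
def IsBGroup (X : Type) [Group X] : Prop :=
  ∀ (Ω : Type) (G : Subgroup (Equiv.Perm Ω)),
    MulAction.IsPreprimitive G Ω →
    (∃ H : Subgroup (Equiv.Perm Ω), H ≤ G ∧ Nonempty (H ≃* X) ∧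
      ∀ ω ω' : Ω, ∃! h : H, h • ω = ω') →
    MulAction.IsMultiplyPretransitive G Ω 2

/-- The relators of `X₀ = ⟨a, b | b⁴ = 1, b⁻¹ a b = a⁻¹⟩`, with `a = of 0` and `b = of 1`:
`b⁴` and `b⁻¹ a b a`. -/
def rels : Set (FreeGroup (Fin 2)) :=
  {FreeGroup.of 1 ^ 4, (FreeGroup.of 1)⁻¹ * FreeGroup.of 0 * FreeGroup.of 1 * FreeGroup.of 0}

/-- The group `X₀ = ⟨a, b | b⁴ = 1, b⁻¹ a b = a⁻¹⟩`. -/
abbrev X0 : Type := PresentedGroup rels

/-! ### The graph and its automorphisms

Vertices: four copies of `ℤ`. Two points `i ≠ j` of the same copy are adjacent iff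
`i + j + v₃(i - j)` is odd, two points `i, j` of different copies are adjacent iff `i + j` is even.
The `3`-adic trees of the four copies form the `4`-regular tree; the automorphism `g` below moves
the centre of that tree, which is why the automorphism group of the graph is primitive. -/

/-- vertices: four copies of the integers -/
abbrev M := ZMod 4 × ℤ

/-- `3`-adic valuation of an integer (`0` at `0`) -/
def w (k : ℤ) : ℕ := padicValInt 3 k

/-- the colour of a pair, an integer; only its parity matters -/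
def col (x y : M) : ℤ := if x.1 = y.1 then x.2 + y.2 + w (x.2 - y.2) else x.2 + y.2 + 1

/-- adjacency -/
def adj (x y : M) : Prop := Odd (col x y)

/-- the automorphism group of the graph -/
def G : Subgroup (Equiv.Perm M) where
  carrier := {σ | ∀ x y, adj (σ x) (σ y) ↔ adj x y}
  mul_mem' := by
    intro a b ha hb x y
    simp only [Set.mem_ofPred_eq] at ha hb ⊢
    rw [Equiv.Perm.mul_apply, Equiv.Perm.mul_apply, ha, hb]
  one_mem' := by intro x y; simp
  inv_mem' := by
    intro a ha x y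
    simp only [Set.mem_ofPred_eq] at ha ⊢
    rw [← ha]
    simp

theorem mem_G (σ : Equiv.Perm M) : σ ∈ G ↔ ∀ x y, adj (σ x) (σ y) ↔ adj x y := Iff.rfl

theorem w_of_not_dvd {k : ℤ} (h : ¬ (3:ℤ) ∣ k) : w k = 0 := by
  unfold w
  exact padicValInt.eq_zero_of_not_dvd (by exact_mod_cast h)

theorem w_three_mul {k : ℤ} (h : k ≠ 0) : w (3 * k) = w k + 1 := by
  unfold w
  rw [padicValInt.mul (by norm_num) h]
  have : padicValInt 3 3 = 1 := by
    have := padicValInt.self (p := 3) (by norm_num)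
    exact_mod_cast this
  rw [this, add_comm]

/-- permutation of the copies together with translations of each copy -/
def P (π : Equiv.Perm (ZMod 4)) (k : ZMod 4 → ℤ) : Equiv.Perm M where
  toFun x := (π x.1, x.2 + k x.1)
  invFun x := (π.symm x.1, x.2 - k (π.symm x.1))
  left_inv x := by simp
  right_inv x := by simp

@[simp] theorem P_apply (π : Equiv.Perm (ZMod 4)) (k : ZMod 4 → ℤ) (x : M) :
    P π k x = (π x.1, x.2 + k x.1) := rfl

theorem P_mem (π : Equiv.Perm (ZMod 4)) (k : ZMod 4 → ℤ) (hk : ∀ c d, Even (k c - k d)) :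
    P π k ∈ G := by
  rw [mem_G]
  rintro ⟨c, i⟩ ⟨d, j⟩
  unfold adj col
  simp only [P_apply, EmbeddingLike.apply_eq_iff_eq]
  by_cases h : c = d
  · subst h
    simp only [if_true]
    have e : i + k c - (j + k c) = i - j := by ring
    rw [e]
    simp only [Int.odd_iff]
    omega
  · simp only [if_neg h]
    have := hk c d
    rw [Int.even_iff] at this
    simp only [Int.odd_iff]
    omega

/-- the extra automorphism, as a function -/
def gf (x : M) : M :=
  if x.1 = 0 then
    (if x.2 % 3 = 0 then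
      ((((x.2 / 3) % 3 + 1 : ℤ) : ZMod 4), x.2 / 3 / 3 + (x.2 / 3) % 3 + 1) else x)
  else (0, 9 * (x.2 - (x.1.val : ℤ)) + 3 * ((x.1.val : ℤ) - 1))

theorem gf_zero_mul (n r : ℤ) (hr : 0 ≤ r) (hr3 : r < 3) :
    gf (0, 9 * n + 3 * r) = (((r + 1 : ℤ) : ZMod 4), n + r + 1) := by
  have h1 : (9 * n + 3 * r) % 3 = 0 := by omega
  have h2 : (9 * n + 3 * r) / 3 % 3 = r := by omega
  have h3 : (9 * n + 3 * r) / 3 / 3 = n := by omega
  simp only [gf, if_true, h1, h2, h3]

theorem gf_zero_of_not {i : ℤ} (h : ¬ i % 3 = 0) : gf (0, i) = (0, i) := by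
  simp only [gf, if_true, if_neg h]

theorem gf_ne {c : ZMod 4} (h : c ≠ 0) (i : ℤ) :
    gf (c, i) = (0, 9 * (i - (c.val : ℤ)) + 3 * ((c.val : ℤ) - 1)) := by
  simp only [gf, if_neg h]

/-- every point is `(0, i)` with `3 ∤ i`, or `(0, 9 n + 3 r)`, or `(r + 1, n + r + 1)`, `r < 3` -/
theorem cases3 (x : M) : (∃ i : ℤ, ¬ i % 3 = 0 ∧ x = (0, i)) ∨
    (∃ n r : ℤ, 0 ≤ r ∧ r < 3 ∧ x = (0, 9 * n + 3 * r)) ∨
    (∃ n r : ℤ, 0 ≤ r ∧ r < 3 ∧ x = (((r + 1 : ℤ) : ZMod 4), n + r + 1)) := by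
  obtain ⟨c, i⟩ := x
  by_cases hc : c = 0
  · subst hc
    by_cases hi : i % 3 = 0
    · right; left
      refine ⟨i / 9, (i / 3) % 3, by omega, by omega, ?_⟩
      congr 1
      omega
    · left; exact ⟨i, hi, rfl⟩
  · right; right
    have hc4 : c.val < 4 := ZMod.val_lt c
    have hc0 : c.val ≠ 0 := by
      intro h
      exact hc ((ZMod.val_eq_zero c).mp h)
    refine ⟨i - c.val, (c.val : ℤ) - 1, by omega, by omega, ?_⟩
    have h1 : (((c.val : ℤ) - 1 + 1 : ℤ) : ZMod 4) = c := by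
      rw [sub_add_cancel]
      simp
    rw [h1]
    congr 1
    omega

theorem cast_ne_zero {r : ℤ} (hr : 0 ≤ r) (hr3 : r < 3) : ((r + 1 : ℤ) : ZMod 4) ≠ 0 := by
  intro h
  rw [ZMod.intCast_zmod_eq_zero_iff_dvd] at h
  omega

theorem cast_val {r : ℤ} (hr : 0 ≤ r) (hr3 : r < 3) :
    ((((r + 1 : ℤ) : ZMod 4).val : ℕ) : ℤ) = r + 1 := by
  rw [ZMod.val_intCast]
  have : (r + 1) % ((4 : ℕ) : ℤ) = r + 1 := by
    push_cast
    omega
  exact this

theorem gf_cast (n r : ℤ) (hr : 0 ≤ r) (hr3 : r < 3) :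
    gf (((r + 1 : ℤ) : ZMod 4), n + r + 1) = (0, 9 * n + 3 * r) := by
  rw [gf_ne (cast_ne_zero hr hr3), cast_val hr hr3]
  congr 1
  ring

theorem gf_gf (x : M) : gf (gf x) = x := by
  rcases cases3 x with ⟨i, hi, rfl⟩ | ⟨n, r, hr, hr3, rfl⟩ | ⟨n, r, hr, hr3, rfl⟩
  · rw [gf_zero_of_not hi, gf_zero_of_not hi]
  · rw [gf_zero_mul n r hr hr3, gf_cast n r hr hr3]
  · rw [gf_cast n r hr hr3, gf_zero_mul n r hr hr3]

/-- the extra automorphism -/
def g : Equiv.Perm M := ⟨gf, gf, gf_gf, gf_gf⟩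

theorem cast_inj {r s : ℤ} (hr : 0 ≤ r) (hr3 : r < 3) (hs : 0 ≤ s) (hs3 : s < 3) :
    ((r + 1 : ℤ) : ZMod 4) = ((s + 1 : ℤ) : ZMod 4) ↔ r = s := by
  constructor
  · intro h
    have := cast_val hr hr3
    rw [h, cast_val hs hs3] at this
    omega
  · rintro rfl; rfl

theorem col_comm_par (x y : M) : adj x y ↔ adj y x := by
  unfold adj col
  by_cases h : x.1 = y.1
  · have hw : w (x.2 - y.2) = w (y.2 - x.2) := by
      unfold w padicValInt
      rw [← Int.natAbs_neg]
      congr 1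
      ring_nf
    rw [if_pos h, if_pos h.symm, hw]
    simp only [Int.odd_iff]
    omega
  · rw [if_neg h, if_neg (Ne.symm h)]
    simp only [Int.odd_iff]
    omega

/-- the key computation: `gf` maps the cone of multiples of 3 to the outer cone, compatible with colours -/
theorem gf_adj_aux (x y : M) (hx : (∃ i : ℤ, ¬ i % 3 = 0 ∧ x = (0, i)) ∨
    (∃ n r : ℤ, 0 ≤ r ∧ r < 3 ∧ x = (0, 9 * n + 3 * r)))
    : adj (gf x) (gf y) ↔ adj x y := by
  rcases hx with ⟨i, hi, rfl⟩ | ⟨n, r, hr, hr3, rfl⟩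
  · rcases cases3 y with ⟨j, hj, rfl⟩ | ⟨m, s, hs, hs3, rfl⟩ | ⟨m, s, hs, hs3, rfl⟩
    · rw [gf_zero_of_not hi, gf_zero_of_not hj]
    · rw [gf_zero_of_not hi, gf_zero_mul m s hs hs3]
      unfold adj col
      have h1 : ¬ ((0 : ZMod 4) = ((s + 1 : ℤ) : ZMod 4)) := fun h => cast_ne_zero hs hs3 h.symm
      have h2 : w (i - (9 * m + 3 * s)) = 0 := w_of_not_dvd (by omega)
      simp only [if_neg h1, if_true, h2, Int.odd_iff]
      push_cast
      omega
    · rw [gf_zero_of_not hi, gf_cast m s hs hs3]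
      unfold adj col
      have h1 : ¬ ((0 : ZMod 4) = ((s + 1 : ℤ) : ZMod 4)) := fun h => cast_ne_zero hs hs3 h.symm
      have h2 : w (i - (9 * m + 3 * s)) = 0 := w_of_not_dvd (by omega)
      simp only [if_neg h1, if_true, h2, Int.odd_iff]
      push_cast
      omega
  · rcases cases3 y with ⟨j, hj, rfl⟩ | ⟨m, s, hs, hs3, rfl⟩ | ⟨m, s, hs, hs3, rfl⟩
    · rw [gf_zero_of_not hj, gf_zero_mul n r hr hr3]
      unfold adj col
      have h1 : ¬ (((r + 1 : ℤ) : ZMod 4) = (0 : ZMod 4)) := cast_ne_zero hr hr3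
      have h2 : w ((9 * n + 3 * r) - j) = 0 := w_of_not_dvd (by omega)
      simp only [if_neg h1, if_true, h2, Int.odd_iff]
      push_cast
      omega
    · rw [gf_zero_mul n r hr hr3, gf_zero_mul m s hs hs3]
      unfold adj col
      simp only [if_true, cast_inj hr hr3 hs hs3]
      by_cases hrs : r = s
      · subst hrs
        simp only [if_true]
        by_cases hnm : n = m
        · subst hnm
          simp only [sub_self, Int.odd_iff]
          omega
        · have e1 : n + r + 1 - (m + r + 1) = n - m := by ring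
          have e2 : 9 * n + 3 * r - (9 * m + 3 * r) = 3 * (3 * (n - m)) := by ring
          have h3 : n - m ≠ 0 := sub_ne_zero.mpr hnm
          rw [e1, e2, w_three_mul (by omega), w_three_mul h3]
          simp only [Int.odd_iff]
          push_cast
          omega
      · simp only [if_neg hrs]
        have e2 : 9 * n + 3 * r - (9 * m + 3 * s) = 3 * (3 * (n - m) + (r - s)) := by ring
        have h3 : w (3 * (n - m) + (r - s)) = 0 := w_of_not_dvd (by omega)
        rw [e2, w_three_mul (by omega), h3]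
        simp only [Int.odd_iff]
        push_cast
        omega
    · rw [gf_zero_mul n r hr hr3, gf_cast m s hs hs3]
      unfold adj col
      have h1 : ¬ (((r + 1 : ℤ) : ZMod 4) = (0 : ZMod 4)) := cast_ne_zero hr hr3
      have h2 : ¬ ((0 : ZMod 4) = ((s + 1 : ℤ) : ZMod 4)) := fun h => cast_ne_zero hs hs3 h.symm
      simp only [if_neg h1, if_neg h2, Int.odd_iff]
      omega

theorem g_mem : g ∈ G := by
  rw [mem_G]
  intro x y
  change adj (gf x) (gf y) ↔ adj x y
  rcases cases3 x with hx | hx | ⟨n, r, hr, hr3, rfl⟩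
  · exact gf_adj_aux x y (Or.inl hx)
  · exact gf_adj_aux x y (Or.inr hx)
  · rcases cases3 y with hy | hy | ⟨m, s, hs, hs3, rfl⟩
    · rw [col_comm_par, gf_adj_aux y _ (Or.inl hy), col_comm_par]
    · rw [col_comm_par, gf_adj_aux y _ (Or.inr hy), col_comm_par]
    · rw [gf_cast n r hr hr3, gf_cast m s hs hs3, ← gf_zero_mul n r hr hr3,
        ← gf_zero_mul m s hs hs3]
      exact (gf_adj_aux _ _ (Or.inr ⟨n, r, hr, hr3, rfl⟩)).symm

theorem exists_perm (c d c' d' : ZMod 4) (h : c ≠ d) (h' : c' ≠ d') :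
    ∃ π : Equiv.Perm (ZMod 4), π c = c' ∧ π d = d' := by
  have key : ∀ c d : ZMod 4, c ≠ d → ∃ π : Equiv.Perm (ZMod 4), π 0 = c ∧ π 1 = d := by
    decide
  obtain ⟨π, h1, h2⟩ := key c d h
  obtain ⟨ρ, h3, h4⟩ := key c' d' h'
  refine ⟨π.symm.trans ρ, ?_, ?_⟩
  · rw [Equiv.trans_apply, ← h1, Equiv.symm_apply_apply, h3]
  · rw [Equiv.trans_apply, ← h2, Equiv.symm_apply_apply, h4]

theorem P_const_mem (π : Equiv.Perm (ZMod 4)) (t : ℤ) : P π (fun _ => t) ∈ G :=
  P_mem _ _ (fun _ _ => by simp)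

section connect

variable (R : M → M → Prop) (hs : ∀ x y, R x y → R y x)
    (ht : ∀ x y z, R x y → R y z → R x z)
    (hinv : ∀ σ ∈ G, ∀ x y, R x y → R (σ x) (σ y))

include hinv

theorem move_same {c : ZMod 4} {i j : ℤ} (h : R (c, i) (c, j)) (d : ZMod 4) (t : ℤ) :
    R (d, i + t) (d, j + t) := by
  have := hinv _ (P_const_mem (Equiv.swap c d) t) _ _ h
  simpa using this

theorem move_diff {c d : ZMod 4} (hcd : c ≠ d) {i j : ℤ} (h : R (c, i) (d, j))
    {c' d' : ZMod 4} (hcd' : c' ≠ d') (t : ℤ) :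
    R (c', i + t) (d', j + t) := by
  obtain ⟨π, h1, h2⟩ := exists_perm c d c' d' hcd hcd'
  have := hinv _ (P_const_mem π t) _ _ h
  simpa [h1, h2] using this

theorem stepA (N : ℕ) : ∀ m : ℤ, m ≠ 0 → m.natAbs ≤ N → R (0, 0) (0, m) →
    ∃ (c : ZMod 4) (i : ℤ) (d : ZMod 4) (j : ℤ), c ≠ d ∧ R (c, i) (d, j) := by
  have h0 : gf (0, 0) = (1, 1) := by
    have := gf_zero_mul 0 0 (by norm_num) (by norm_num)
    simpa using this
  induction N with
  | zero =>
    intro m hm hN
    omega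
  | succ N ih =>
    intro m hm hN h
    have hg := hinv _ g_mem _ _ h
    change R (gf (0, 0)) (gf (0, m)) at hg
    rw [h0] at hg
    by_cases h3 : m % 3 = 0
    · have e : m = 9 * (m / 9) + 3 * ((m / 3) % 3) := by omega
      have hr : 0 ≤ (m / 3) % 3 := by omega
      have hr3 : (m / 3) % 3 < 3 := by omega
      rw [e, gf_zero_mul _ _ hr hr3] at hg
      by_cases hr0 : (m / 3) % 3 = 0
      · rw [hr0] at hg
        have h2 := move_same R hinv (c := 1) (i := 1) (j := m / 9 + 0 + 1) (by simpa using hg) 0 (-1)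
        have e2 : m / 9 + 0 + 1 + -1 = m / 9 := by ring
        rw [e2] at h2
        refine ih (m / 9) (by omega) (by omega) (by simpa using h2)
      · refine ⟨_, _, _, _, ?_, hg⟩
        intro hc
        have h1 : (1 : ZMod 4) = ((0 + 1 : ℤ) : ZMod 4) := by simp
        rw [h1, cast_inj (by norm_num) (by norm_num) hr hr3] at hc
        exact hr0 hc.symm
    · rw [gf_zero_of_not h3] at hg
      exact ⟨_, _, _, _, by decide, hg⟩

include hs ht

theorem connect (x y : M) (hxy : x ≠ y) (h : R x y) : ∀ u v, R u v := by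
  -- a related pair in different copies
  have hA : ∃ (c : ZMod 4) (i : ℤ) (d : ZMod 4) (j : ℤ), c ≠ d ∧ R (c, i) (d, j) := by
    obtain ⟨c, i⟩ := x
    obtain ⟨d, j⟩ := y
    by_cases hcd : c = d
    · subst hcd
      have h2 := move_same R hinv h 0 (-i)
      have e1 : i + -i = 0 := by ring
      rw [e1] at h2
      refine stepA R hinv (j + -i).natAbs (j + -i) ?_ le_rfl h2
      intro h3
      apply hxy
      have : i = j := by omega
      rw [this]
    · exact ⟨c, i, d, j, hcd, h⟩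
  obtain ⟨c, i, d, j, hcd, hR⟩ := hA
  -- shift by two on one copy
  have hB : R (0, 0) (0, 2) := by
    have hmem : P 1 (fun e => if e = d then 2 else 0) ∈ G := by
      apply P_mem
      intro e f
      by_cases h1 : e = d <;> by_cases h2 : f = d <;> simp [h1, h2]
    have h1 := hinv _ hmem _ _ hR
    simp only [P_apply, Equiv.Perm.coe_one, id_eq, if_neg hcd, if_true, add_zero] at h1
    have h2 := ht _ _ _ (hs _ _ hR) h1
    have h3 := move_same R hinv h2 0 (-j)
    have e1 : j + -j = 0 := by ring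
    have e2 : j + 2 + -j = 2 := by ring
    rwa [e1, e2] at h3
  have hC : R (1, 1) (0, 2) := by
    have h0 : gf (0, 0) = (1, 1) := by
      have := gf_zero_mul 0 0 (by norm_num) (by norm_num)
      simpa using this
    have hg := hinv _ g_mem _ _ hB
    change R (gf (0, 0)) (gf (0, 2)) at hg
    rwa [h0, gf_zero_of_not (by norm_num)] at hg
  have hD : ∀ (c d : ZMod 4) (i : ℤ), c ≠ d → R (c, i) (d, i + 1) := by
    intro c d i hcd
    have := move_diff R hinv (by decide) hC hcd (i - 1)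
    have e1 : (1 : ℤ) + (i - 1) = i := by ring
    have e2 : (2 : ℤ) + (i - 1) = i + 1 := by ring
    rwa [e1, e2] at this
  have hE : ∀ (c : ZMod 4) (i : ℤ), R (c, i) (c, i + 1) := by
    intro c i
    have hex : ∀ c : ZMod 4, ∃ d e : ZMod 4, c ≠ d ∧ c ≠ e ∧ d ≠ e := by decide
    obtain ⟨d, e, h1, h2, h3⟩ := hex c
    -- (d, i-1) ~ (c, i), (d, i-1) ~ (e, i) ~ (c, i+1)
    have k1 := hD d c (i - 1) (Ne.symm h1)
    have k2 := hD d e (i - 1) h3
    have k3 := hD e c i (Ne.symm h2)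
    rw [sub_add_cancel] at k1 k2
    exact ht _ _ _ (hs _ _ k1) (ht _ _ _ k2 k3)
  have hF : ∀ (c : ZMod 4) (i j : ℤ), R (c, i) (c, j) := by
    have hup : ∀ (c : ZMod 4) (i : ℤ) (n : ℕ), R (c, i) (c, i + n) := by
      intro c i n
      induction n with
      | zero =>
        have := ht _ _ _ (hE c i) (hs _ _ (hE c i))
        simpa using this
      | succ n ih =>
        have := ht _ _ _ ih (hE c (i + n))
        push_cast
        rwa [← add_assoc]
    intro c i j
    rcases le_total i j with hij | hij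
    · obtain ⟨n, hn⟩ := Int.eq_ofNat_of_zero_le (sub_nonneg.mpr hij)
      have := hup c i n
      rwa [← hn, add_sub_cancel] at this
    · obtain ⟨n, hn⟩ := Int.eq_ofNat_of_zero_le (sub_nonneg.mpr hij)
      have := hup c j n
      rw [← hn, add_sub_cancel] at this
      exact hs _ _ this
  rintro ⟨c, i⟩ ⟨d, j⟩
  by_cases hcd : c = d
  · subst hcd
    exact hF c i j
  · exact ht _ _ _ (hD c d i hcd) (hF d _ _)

end connect

theorem exists_move (x y : M) : ∃ σ ∈ G, σ x = y := by
  obtain ⟨c, i⟩ := x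
  obtain ⟨d, j⟩ := y
  refine ⟨P (Equiv.swap c d) (fun _ => j - i), P_const_mem _ _, ?_⟩
  simp

instance : IsPretransitive G M := ⟨fun x y => by
  obtain ⟨σ, hσ, h⟩ := exists_move x y
  exact ⟨⟨σ, hσ⟩, h⟩⟩

theorem preprimitive : IsPreprimitive G M := by
  refine { isTrivialBlock_of_isBlock := ?_ }
  intro B hB
  by_contra hcon
  unfold IsTrivialBlock at hcon
  push Not at hcon
  obtain ⟨h1, h2⟩ := hcon
  obtain ⟨x, hx, y, hy, hxy⟩ := h1
  apply h2
  have hblock : ∀ (σ τ : G) (z : M), z ∈ σ • B → z ∈ τ • B → σ • B = τ • B := by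
    intro σ τ z hz1 hz2
    exact hB.smul_eq_smul_of_nonempty ⟨z, hz1, hz2⟩
  let R : M → M → Prop := fun u v => ∃ σ : G, u ∈ σ • B ∧ v ∈ σ • B
  have hR : ∀ u v, R u v := by
    refine connect R ?_ ?_ ?_ x y hxy ⟨1, by simpa using hx, by simpa using hy⟩
    · rintro u v ⟨σ, h1, h2⟩
      exact ⟨σ, h2, h1⟩
    · rintro u v z ⟨σ, h1, h2⟩ ⟨τ, h3, h4⟩
      refine ⟨σ, h1, ?_⟩
      rw [hblock σ τ v h2 h3]
      exact h4
    · rintro σ hσ u v ⟨τ, h1, h2⟩
      refine ⟨⟨σ, hσ⟩ * τ, ?_, ?_⟩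
      · rw [mul_smul]
        exact Set.smul_mem_smul_set h1
      · rw [mul_smul]
        exact Set.smul_mem_smul_set h2
  rw [Set.eq_univ_iff_forall]
  intro z
  obtain ⟨σ, h3, h4⟩ := hR x z
  have := hblock σ 1 x h3 (by simpa using hx)
  rw [this] at h4
  simpa using h4

theorem not_two_transitive : ¬ IsMultiplyPretransitive G M 2 := by
  rw [is_two_pretransitive_iff]
  intro h
  obtain ⟨⟨σ, hσ⟩, h1, h2⟩ := h (a := ((0, 0) : M)) (b := ((1, 0) : M)) (c := ((0, 0) : M))
    (d := ((1, 1) : M)) (by decide) (by decide)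
  change σ (0, 0) = (0, 0) at h1
  change σ (1, 0) = (1, 1) at h2
  have h3 := (mem_G σ).mp hσ (0, 0) (1, 0)
  rw [h1, h2] at h3
  unfold adj col at h3
  have h4 : ¬ ((0 : ZMod 4) = 1) := by decide
  simp only [if_neg h4] at h3
  rw [Int.odd_iff, Int.odd_iff] at h3
  omega

/-! ### the group `X₀` -/

/-- generator `a` of `X₀` -/
def xa : X0 := PresentedGroup.of 0
/-- generator `b` of `X₀` -/
def xb : X0 := PresentedGroup.of 1

theorem xb_pow : xb ^ 4 = 1 := by
  have : (PresentedGroup.mk rels) (FreeGroup.of 1 ^ 4) = 1 :=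
    PresentedGroup.one_of_mem (by simp [rels])
  exact this

theorem xab : xb⁻¹ * xa * xb * xa = 1 := by
  have : (PresentedGroup.mk rels)
      ((FreeGroup.of 1)⁻¹ * FreeGroup.of 0 * FreeGroup.of 1 * FreeGroup.of 0) = 1 :=
    PresentedGroup.one_of_mem (by simp [rels])
  exact this

theorem conj_b (l : ℤ) : xa ^ l * xb = xb * xa ^ (-l) := by
  have h : xb⁻¹ * xa * xb = xa⁻¹ := by
    rw [eq_inv_iff_mul_eq_one]; exact xab
  have h2 : xb⁻¹ * xa ^ l * xb = xa ^ (-l) := by
    have : xb⁻¹ * xa ^ l * xb = (xb⁻¹ * xa * xb) ^ l := by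
      have := conj_zpow (a := xb⁻¹) (b := xa) (i := l)
      simpa using this.symm
    rw [this, h, inv_zpow, zpow_neg]
  rw [← h2]
  group

theorem conj_bk (k : ℤ) : ∃ e : ℤ, ∀ l : ℤ, xa ^ l * xb ^ k = xb ^ k * xa ^ (e * l) := by
  have hinv : ∀ l : ℤ, xa ^ l * xb⁻¹ = xb⁻¹ * xa ^ (-l) := by
    intro l
    have h := conj_b (-l)
    rw [neg_neg] at h
    -- a^{-l} b = b a^l
    calc xa ^ l * xb⁻¹ = xb⁻¹ * (xb * xa ^ l) * xb⁻¹ := by group
      _ = xb⁻¹ * (xa ^ (-l) * xb) * xb⁻¹ := by rw [h]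
      _ = xb⁻¹ * xa ^ (-l) := by group
  induction k using Int.induction_on with
  | zero => exact ⟨1, fun l => by simp⟩
  | succ k ih =>
    obtain ⟨e, he⟩ := ih
    refine ⟨-e, fun l => ?_⟩
    rw [zpow_add_one, ← mul_assoc, he, mul_assoc, conj_b, ← mul_assoc]
    congr 2
    ring
  | pred k ih =>
    obtain ⟨e, he⟩ := ih
    refine ⟨-e, fun l => ?_⟩
    rw [zpow_sub_one, ← mul_assoc, he, mul_assoc, hinv, ← mul_assoc]
    congr 2
    ring

theorem normal_form (x : X0) : ∃ k l : ℤ, x = xb ^ k * xa ^ l := by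
  let S : Subgroup X0 :=
    { carrier := {x | ∃ k l : ℤ, x = xb ^ k * xa ^ l}
      mul_mem' := by
        rintro x y ⟨k, l, rfl⟩ ⟨k', l', rfl⟩
        obtain ⟨e, he⟩ := conj_bk k'
        refine ⟨k + k', e * l + l', ?_⟩
        rw [zpow_add, zpow_add]
        calc xb ^ k * xa ^ l * (xb ^ k' * xa ^ l')
            = xb ^ k * (xa ^ l * xb ^ k') * xa ^ l' := by group
          _ = xb ^ k * (xb ^ k' * xa ^ (e * l)) * xa ^ l' := by rw [he]
          _ = _ := by group
      one_mem' := ⟨0, 0, by simp⟩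
      inv_mem' := by
        rintro x ⟨k, l, rfl⟩
        obtain ⟨e, he⟩ := conj_bk (-k)
        refine ⟨-k, e * (-l), ?_⟩
        rw [mul_inv_rev, ← zpow_neg, ← zpow_neg, he] }
  have hS : ∀ i : Fin 2, (PresentedGroup.of i : X0) ∈ S := by
    intro i
    fin_cases i
    · exact ⟨0, 1, by simp [xa]⟩
    · exact ⟨1, 0, by simp [xb]⟩
  have htop : S = ⊤ := by
    rw [eq_top_iff, ← PresentedGroup.closure_range_of, Subgroup.closure_le]
    rintro _ ⟨i, rfl⟩
    exact hS i
  have : x ∈ S := by rw [htop]; trivial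
  exact this

/-- the sign of a copy -/
def eps (c : ZMod 4) : ℤ := if c = 0 ∨ c = 2 then 1 else -1

theorem eps_succ (c : ZMod 4) : eps (c + 1) = - eps c := by
  revert c; decide

/-- the permutation by which `a` acts -/
def pa : Equiv.Perm M := P 1 eps
/-- the permutation by which `b` acts -/
def pb : Equiv.Perm M := P (Equiv.addRight 1) (fun _ => 0)

theorem pa_mem : pa ∈ G := by
  apply P_mem
  decide

theorem pb_mem : pb ∈ G := P_const_mem _ _

theorem pa_apply (x : M) : pa x = (x.1, x.2 + eps x.1) := by simp [pa]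
theorem pb_apply (x : M) : pb x = (x.1 + 1, x.2) := by simp [pb]

theorem rel1 : pb ^ 4 = 1 := by
  ext1 x
  simp only [pow_succ, pow_zero, Equiv.Perm.mul_apply, Equiv.Perm.one_apply, pb_apply]
  have : x.1 + 1 + 1 + 1 + 1 = x.1 := by
    have h : ∀ c : ZMod 4, c + 1 + 1 + 1 + 1 = c := by decide
    exact h _
  rw [this]

theorem rel2 : pb⁻¹ * pa * pb * pa = 1 := by
  rw [mul_assoc, mul_assoc, inv_mul_eq_one]
  ext1 x
  simp only [Equiv.Perm.mul_apply, pb_apply, pa_apply, eps_succ]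
  congr 1
  ring

/-- the action homomorphism -/
def act : X0 →* Equiv.Perm M :=
  PresentedGroup.toGroup (f := ![pa, pb]) (by
    intro r hr
    rcases hr with rfl | rfl
    · simpa using rel1
    · simpa using rel2)

theorem act_xa : act xa = pa := by
  simp [act, xa]

theorem act_xb : act xb = pb := by
  simp [act, xb]

theorem pa_zpow (l : ℤ) (x : M) : (pa ^ l) x = (x.1, x.2 + l * eps x.1) := by
  induction l using Int.induction_on generalizing x with
  | zero => simp
  | succ l ih =>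
    rw [zpow_add_one, Equiv.Perm.mul_apply, pa_apply, ih]
    congr 1
    push_cast
    ring
  | pred l ih =>
    rw [zpow_sub_one, Equiv.Perm.mul_apply]
    have h : pa⁻¹ x = (x.1, x.2 - eps x.1) := by
      rw [Equiv.Perm.inv_eq_iff_eq, pa_apply]
      simp
    rw [h, ih]
    congr 1
    push_cast
    ring

theorem pb_zpow (k : ℤ) (x : M) : (pb ^ k) x = (x.1 + (k : ZMod 4), x.2) := by
  induction k using Int.induction_on generalizing x with
  | zero => simp
  | succ k ih =>
    rw [zpow_add_one, Equiv.Perm.mul_apply, pb_apply, ih]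
    congr 1
    push_cast
    ring
  | pred k ih =>
    rw [zpow_sub_one, Equiv.Perm.mul_apply]
    have h : pb⁻¹ x = (x.1 - 1, x.2) := by
      rw [Equiv.Perm.inv_eq_iff_eq, pb_apply]
      simp
    rw [h, ih]
    congr 1
    push_cast
    ring

theorem act_apply (k l : ℤ) (x : M) :
    act (xb ^ k * xa ^ l) x = (x.1 + (k : ZMod 4), x.2 + l * eps x.1) := by
  rw [map_mul, map_zpow, map_zpow, act_xa, act_xb, Equiv.Perm.mul_apply, pa_zpow, pb_zpow]

theorem eps_sq (c : ZMod 4) : eps c * eps c = 1 := by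
  revert c; decide

/-- an element with a fixed point is trivial -/
theorem eq_one_of_fix (g : X0) (x : M) (h : act g x = x) : g = 1 := by
  obtain ⟨k, l, rfl⟩ := normal_form g
  rw [act_apply] at h
  have h1 : x.1 + (k : ZMod 4) = x.1 := congrArg Prod.fst h
  have h2 : x.2 + l * eps x.1 = x.2 := congrArg Prod.snd h
  have h3 : (k : ZMod 4) = 0 := by simpa using h1
  have h4 : l = 0 := by
    have : l * eps x.1 = 0 := by linarith
    have h5 := congrArg (· * eps x.1) this
    simp only [mul_assoc, eps_sq, mul_one, zero_mul] at h5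
    exact h5
  rw [ZMod.intCast_zmod_eq_zero_iff_dvd] at h3
  obtain ⟨m, hm⟩ := h3
  rw [h4, hm, zpow_zero, mul_one, zpow_mul]
  have : xb ^ ((4 : ℕ) : ℤ) = 1 := by
    rw [zpow_natCast]; exact xb_pow
  rw [this, one_zpow]

theorem act_injective : Function.Injective act := by
  rw [injective_iff_map_eq_one]
  intro g hg
  exact eq_one_of_fix g (0, 0) (by rw [hg]; rfl)

theorem act_trans (x y : M) : ∃ g : X0, act g x = y := by
  refine ⟨xb ^ ((y.1 - x.1).val : ℤ) * xa ^ ((y.2 - x.2) * eps x.1), ?_⟩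
  rw [act_apply, mul_assoc, eps_sq]
  ext
  · simp
  · simp

theorem act_mem (g : X0) : act g ∈ G := by
  obtain ⟨k, l, rfl⟩ := normal_form g
  rw [map_mul, map_zpow, map_zpow, act_xa, act_xb]
  exact G.mul_mem (G.zpow_mem pb_mem _) (G.zpow_mem pa_mem _)

theorem regular : ∃ H : Subgroup (Equiv.Perm M), H ≤ G ∧ Nonempty (H ≃* X0) ∧
    ∀ ω ω' : M, ∃! h : H, h • ω = ω' := by
  refine ⟨act.range, ?_, ⟨(MonoidHom.ofInjective act_injective).symm⟩, ?_⟩
  · rintro _ ⟨g, rfl⟩
    exact act_mem g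
  · intro x y
    obtain ⟨g, hg⟩ := act_trans x y
    refine ⟨⟨act g, g, rfl⟩, hg, ?_⟩
    rintro ⟨_, g', rfl⟩ hg'
    have hg'' : act g' x = y := hg'
    have h1 : act (g⁻¹ * g') x = x := by
      rw [map_mul, Equiv.Perm.mul_apply, hg'', ← hg, map_inv, Equiv.Perm.inv_def,
        Equiv.symm_apply_apply]
    have h2 := eq_one_of_fix _ _ h1
    have h3 : g' = g := by
      have := inv_mul_eq_one.mp h2
      exact this.symm
    rw [h3]

/-- `X₀ = ⟨a, b | b⁴ = 1, b⁻¹ a b = a⁻¹⟩` is not a B-group. -/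
theorem result : ¬ IsBGroup X0 := fun h =>
  not_two_transitive (h M G preprimitive regular)

end Pool.Agent.Results.MP_291637_al.NotBGroup
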